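import Pool.Agent.Q109.BykP.Defs

/-!
The sign cocycle.
-/

set_option autoImplicit false

namespace Pool.Agent.Q109.BykP

open Finsupp

/-- the sign as an integer -/
noncomputable def sg (x : ℝ) : ℤ := (SignType.sign x : ℤ)

lemma sg_mul (x y : ℝ) : sg (x * y) = sg x * sg y := by
  unfold sg
  rw [sign_mul]
  push_cast
  rfl

lemma sg_pos {x : ℝ} (h : 0 < x) : sg x = 1 := by
  unfold sg; rw [sign_pos h]; rfl

lemma sg_neg {x : ℝ} (h : x < 0) : sg x = -1 := by
  unfold sg; rw [sign_neg h]; rfl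

lemma sg_zero : sg 0 = 0 := by
  unfold sg; rw [sign_zero]; rfl

lemma sg_negate (x : ℝ) : sg (-x) = - sg x := by
  rcases lt_trichotomy x 0 with h | h | h
  · rw [sg_neg h, sg_pos (neg_pos.2 h), neg_neg]
  · rw [h, neg_zero, sg_zero, neg_zero]
  · rw [sg_pos h, sg_neg (neg_lt_zero.2 h)]

lemma sg_sq {x : ℝ} (h : x ≠ 0) : sg x * sg x = 1 := by
  rcases lt_or_gt_of_ne h with h | h
  · rw [sg_neg h]; norm_num
  · rw [sg_pos h]; norm_num

/-- the three term identity -/
lemma three_term (b d D : ℝ) (h : ¬ (b = 0 ∧ d = 0)) :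
    sg (b * d * D) - sg ((b + d) * d * D) + sg ((b + d) * b * (-D)) = - sg D := by
  have key : sg b * sg d - sg (b + d) * sg d - sg (b + d) * sg b = -1 := by
    rcases lt_trichotomy b 0 with hb | hb | hb <;> rcases lt_trichotomy d 0 with hd | hd | hd
    · rw [sg_neg hb, sg_neg hd, sg_neg (by linarith)]; norm_num
    · subst hd; rw [sg_neg hb, sg_zero, add_zero, sg_neg hb]; norm_num
    · rw [sg_neg hb, sg_pos hd]
      rcases lt_trichotomy (b + d) 0 with hs | hs | hs
      · rw [sg_neg hs]; norm_num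
      · rw [hs, sg_zero]; norm_num
      · rw [sg_pos hs]; norm_num
    · subst hb; rw [sg_neg hd, sg_zero, zero_add, sg_neg hd]; norm_num
    · exact absurd ⟨hb, hd⟩ h
    · subst hb; rw [sg_pos hd, sg_zero, zero_add, sg_pos hd]; norm_num
    · rw [sg_pos hb, sg_neg hd]
      rcases lt_trichotomy (b + d) 0 with hs | hs | hs
      · rw [sg_neg hs]; norm_num
      · rw [hs, sg_zero]; norm_num
      · rw [sg_pos hs]; norm_num
    · subst hd; rw [sg_pos hb, sg_zero, add_zero, sg_pos hb]; norm_num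
    · rw [sg_pos hb, sg_pos hd, sg_pos (by linarith)]; norm_num
  rw [sg_mul, sg_mul, sg_mul, sg_mul, sg_mul, sg_mul, sg_negate]
  linear_combination (sg D) * key

section

variable {O : Type} [CommRing O]

/-- the determinant of a pair of vectors -/
def dt (v w : Fin 2 → O) : O := v 0 * w 1 - v 1 * w 0

lemma dt_unit (b : Bas O 2) : IsUnit (dt (b 0) (b 1)) := by
  have h := (Pi.basisFun O (Fin 2)).isUnit_det b
  rw [Pi.basisFun_det, Matrix.detRowAlternating] at h
  change IsUnit (Matrix.det (fun i => b i)) at h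
  rw [Matrix.det_fin_two] at h
  unfold dt
  convert h using 1

/-- the basis given by two vectors with unit determinant -/
noncomputable def mkBas (v w : Fin 2 → O) (h : IsUnit (dt v w)) : Bas O 2 :=
  have h1 : IsUnit ((Pi.basisFun O (Fin 2)).det ![v, w]) := by
    rw [Pi.basisFun_det, Matrix.detRowAlternating]
    change IsUnit (Matrix.det ![v, w])
    rw [Matrix.det_fin_two]
    simpa [dt] using h
  Module.Basis.mk ((Module.Basis.is_basis_iff_det (Pi.basisFun O (Fin 2))).2 h1).1
    ((Module.Basis.is_basis_iff_det (Pi.basisFun O (Fin 2))).2 h1).2.ge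

lemma mkBas_zero (v w : Fin 2 → O) (h : IsUnit (dt v w)) : mkBas v w h 0 = v := by
  simp [mkBas]

lemma mkBas_one (v w : Fin 2 → O) (h : IsUnit (dt v w)) : mkBas v w h 1 = w := by
  simp [mkBas]

/-- the local sign -/
noncomputable def ls (s : O →+* ℝ) (v w : Fin 2 → O) : ℤ := sg (s (v 1 * w 1 * dt v w))

variable (s s' : O →+* ℝ)

/-- the cocycle -/
noncomputable def coc : (Bas O 2 →₀ ℤ) →ₗ[ℤ] ℤ :=
  linearCombination ℤ fun b => ls s (b 0) (b 1) - ls s' (b 0) (b 1)

lemma coc_single (b : Bas O 2) (n : ℤ) :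
    coc s s' (single b n) = n * (ls s (b 0) (b 1) - ls s' (b 0) (b 1)) := by
  rw [coc, linearCombination_single, smul_eq_mul]

lemma ls_swap (v w : Fin 2 → O) : ls s w v = - ls s v w := by
  unfold ls
  rw [← sg_negate, ← map_neg]
  congr 2
  unfold dt
  ring

lemma ls_unit (v w : Fin 2 → O) (u : O) (hu : IsUnit u) : ls s (u • v) w = ls s v w := by
  unfold ls
  have h1 : (u • v) 1 * w 1 * dt (u • v) w = u * u * (v 1 * w 1 * dt v w) := by
    unfold dt
    simp only [Pi.smul_apply, smul_eq_mul]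
    ring
  have h2 : s u ≠ 0 := (hu.map s).ne_zero
  rw [h1, map_mul, map_mul, sg_mul, sg_mul, sg_sq h2, one_mul]

lemma ls_three (v w : Fin 2 → O) (h : IsUnit (dt v w)) :
    ls s v w - ls s (v + w) w + ls s (v + w) v = - sg (s (dt v w)) := by
  have h0 : s (dt v w) ≠ 0 := (h.map s).ne_zero
  have h1 := three_term (s (v 1)) (s (w 1)) (s (dt v w)) (by
    rintro ⟨hb, hd⟩
    apply h0
    unfold dt
    rw [map_sub, map_mul, map_mul, hb, hd]
    ring)
  rw [← h1]
  unfold ls
  have e1 : (v + w) 1 * w 1 * dt (v + w) w = (v 1 + w 1) * w 1 * dt v w := by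
    unfold dt
    simp only [Pi.add_apply]
    ring
  have e2 : (v + w) 1 * v 1 * dt (v + w) v = (v 1 + w 1) * v 1 * (-dt v w) := by
    unfold dt
    simp only [Pi.add_apply]
    ring
  rw [e1, e2]
  simp only [map_mul, map_add, map_neg]

/-- the cocycle vanishes on the relations -/
theorem coc_rel (hs : ∀ u : O, IsUnit u → sg (s u) = sg (s' u)) (x : Bas O 2 →₀ ℤ)
    (hx : x ∈ Rel O 2) : coc s s' x = 0 := by
  have h : Rel O 2 ≤ LinearMap.ker (coc s s') := by
    unfold Rel
    rw [Submodule.span_le]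
    rintro x ((⟨b, b', σ, hb, rfl⟩ | ⟨b, b', u, hb, rfl⟩) | ⟨b, b', b'', i, j, hi, hj, h1, h2, h3, h4, -, rfl⟩)
    · rw [SetLike.mem_coe, LinearMap.mem_ker, map_sub, map_smul, coc_single, coc_single, hb, hb]
      have hσ : ∀ σ : Equiv.Perm (Fin 2), σ = 1 ∨ σ = Equiv.swap 0 1 := by decide
      rcases hσ σ with rfl | rfl
      · simp
      · rw [Equiv.swap_apply_left, Equiv.swap_apply_right, Equiv.Perm.sign_swap (by decide),
          ls_swap s, ls_swap s']
        simp
        ring
    · rw [SetLike.mem_coe, LinearMap.mem_ker, map_sub, coc_single, coc_single, hb, hb]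
      have e0 : (((0 : Fin 2) : Fin 2) : ℕ) = 0 := rfl
      have e1 : ¬ (((1 : Fin 2) : Fin 2) : ℕ) = 0 := by decide
      rw [if_pos e0, if_neg e1]
      have e2 : u • b 0 = (u : O) • b 0 := rfl
      rw [e2, ls_unit s _ _ _ u.isUnit, ls_unit s' _ _ _ u.isUnit, sub_self]
    · have ei : i = 0 := Fin.ext hi
      have ej : j = 1 := Fin.ext hj
      subst ei; subst ej
      rw [SetLike.mem_coe, LinearMap.mem_ker, map_add, map_sub, coc_single, coc_single, coc_single,
        h1, h2 1 (by decide), h3, h4]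
      have a1 := ls_three s (b 0) (b 1) (dt_unit b)
      have a2 := ls_three s' (b 0) (b 1) (dt_unit b)
      have a3 := hs _ (dt_unit b)
      linarith
  exact h hx

end

end Pool.Agent.Q109.BykP
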