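import Pool.Agent.Q109.BykP.A

/-!
The ring `ℤ√3`.
-/

set_option autoImplicit false

namespace Pool.Agent.Q109.BykP

open Finsupp

lemma no_sqrt3 (n : ℤ) : (3 : ℤ) ≠ n * n := by
  intro h
  have h1 : n * n < 4 := by omega
  have h2 : n < 2 := by nlinarith
  have h3 : -2 < n := by nlinarith
  interval_cases n <;> omega

lemma norm3 (x : ℤ√3) : x.norm = x.re * x.re - 3 * x.im * x.im := rfl

/-- Euclidean division -/
theorem euclid : IsEuclidean (ℤ√3) := by
  refine ⟨fun x => x.norm.natAbs, fun a b hb => ?_⟩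
  have hn : b.norm ≠ 0 := by
    intro h
    apply hb
    have h1 : b.re * b.re = 3 * (b.im * b.im) := by
      rw [norm3] at h
      linarith
    by_contra hb0
    have him : b.im ≠ 0 := by
      intro him
      rw [him] at h1
      have : b.re = 0 := by
        have : b.re * b.re = 0 := by linarith
        exact mul_self_eq_zero.1 this
      exact hb0 (Zsqrtd.ext this him)
    have h2 : IsSquare (3 : ℚ) := by
      refine ⟨(b.re : ℚ) / b.im, ?_⟩
      have : (b.im : ℚ) ≠ 0 := by exact_mod_cast him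
      field_simp
      have h3 : (b.re : ℚ) * b.re = 3 * (b.im * b.im) := by exact_mod_cast h1
      linarith
    have h3 : ¬ IsSquare (3 : ℚ) := by
      have : ¬ IsSquare (3 : ℕ) := by
        rintro ⟨r, hr⟩
        have : r < 2 := by nlinarith
        interval_cases r <;> omega
      intro h4
      apply this
      have h5 : IsSquare ((3 : ℕ) : ℚ) := by exact_mod_cast h4
      exact Rat.isSquare_natCast_iff.1 h5
    exact h3 h2
  set N := b.norm with hN
  set c := a * star b with hc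
  set p := round ((c.re : ℚ) / N) with hp
  set q := round ((c.im : ℚ) / N) with hq
  refine ⟨⟨p, q⟩, a - b * ⟨p, q⟩, by ring, Or.inr ?_⟩
  have e1 : |(c.re : ℚ) / N - p| ≤ 1 / 2 := abs_sub_round _
  have e2 : |(c.im : ℚ) / N - q| ≤ 1 / 2 := abs_sub_round _
  have hNq : (N : ℚ) ≠ 0 := by exact_mod_cast hn
  -- the norm of `a - b q` times `N`
  have hbb : b * star b = (N : ℤ√3) := by rw [hN, Zsqrtd.norm_eq_mul_conj]
  have e3 : (a - b * ⟨p, q⟩) * star b = ⟨c.re - N * p, c.im - N * q⟩ := by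
    have : (a - b * ⟨p, q⟩) * star b = c - (b * star b) * ⟨p, q⟩ := by rw [hc]; ring
    rw [this, hbb]
    ext <;> simp
  have e4 : (a - b * ⟨p, q⟩).norm * N = (c.re - N * p) * (c.re - N * p) -
      3 * (c.im - N * q) * (c.im - N * q) := by
    have h1 := congrArg Zsqrtd.norm e3
    rw [Zsqrtd.norm_mul, Zsqrtd.norm_conj] at h1
    rw [hN, h1]
    rfl
  have e5 : ((a - b * ⟨p, q⟩).norm : ℚ) = N * (((c.re : ℚ) / N - p) ^ 2 -
      3 * ((c.im : ℚ) / N - q) ^ 2) := by
    have h1 : ((a - b * ⟨p, q⟩).norm : ℚ) * N = (c.re - N * p) * (c.re - N * p) -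
      3 * (c.im - N * q) * (c.im - N * q) := by exact_mod_cast e4
    have h2 : ((a - b * ⟨p, q⟩).norm : ℚ) = ((c.re - N * p) * (c.re - N * p) -
      3 * (c.im - N * q) * (c.im - N * q)) / N := by
      rw [← h1]
      field_simp
    rw [h2]
    field_simp
  set x := (c.re : ℚ) / N - p with hx
  set y := (c.im : ℚ) / N - q with hy
  have hx2 : x ^ 2 ≤ 1 / 4 := by
    have := abs_le.1 e1
    nlinarith [this.1, this.2]
  have hy2 : y ^ 2 ≤ 1 / 4 := by
    have := abs_le.1 e2
    nlinarith [this.1, this.2]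
  have e6 : |x ^ 2 - 3 * y ^ 2| < 1 := by
    rw [abs_lt]
    constructor <;> nlinarith [sq_nonneg x, sq_nonneg y]
  have e7 : |((a - b * ⟨p, q⟩).norm : ℚ)| < |(N : ℚ)| := by
    rw [e5, abs_mul]
    have : 0 < |(N : ℚ)| := abs_pos.2 hNq
    nlinarith
  have e8 : |(a - b * ⟨p, q⟩).norm| < |N| := by exact_mod_cast e7
  change (a - b * ⟨p, q⟩).norm.natAbs < b.norm.natAbs
  have e9 : ((a - b * ⟨p, q⟩).norm.natAbs : ℤ) < (N.natAbs : ℤ) := by
    rw [Int.natCast_natAbs, Int.natCast_natAbs]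
    exact e8
  exact_mod_cast e9

/-- the units generate -/
theorem generated : GeneratedByUnits (ℤ√3) := by
  unfold GeneratedByUnits
  rw [eq_top_iff]
  intro x _
  have h1 : (1 : ℤ√3) ∈ AddSubgroup.closure {x : ℤ√3 | IsUnit x} :=
    AddSubgroup.subset_closure isUnit_one
  have h2 : (⟨2, 1⟩ : ℤ√3) ∈ AddSubgroup.closure {x : ℤ√3 | IsUnit x} := by
    apply AddSubgroup.subset_closure
    refine IsUnit.of_mul_eq_one ⟨2, -1⟩ ?_
    ext <;> simp
  have h3 : x = x.im • (⟨2, 1⟩ : ℤ√3) + (x.re - 2 * x.im) • (1 : ℤ√3) := by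
    ext <;> simp
    ring
  rw [h3]
  exact AddSubgroup.add_mem _ (AddSubgroup.zsmul_mem _ h2 _) (AddSubgroup.zsmul_mem _ h1 _)

/-- the two real embeddings -/
noncomputable def emb (r : ℝ) (h : r * r = 3) : ℤ√3 →+* ℝ :=
  Zsqrtd.lift ⟨r, by rw [h]; norm_num⟩

lemma emb_apply (r : ℝ) (h : r * r = 3) (x : ℤ√3) : emb r h x = x.re + x.im * r := rfl

lemma unit_norm (u : ℤ√3) (hu : IsUnit u) : u.norm = 1 := by
  have h1 := Zsqrtd.norm_eq_one_iff.2 hu
  rcases Int.natAbs_eq_iff.1 h1 with h | h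
  · exact_mod_cast h
  · exfalso
    rw [norm3] at h
    push_cast at h
    have h2 : (u.re * u.re) % 3 = 2 := by
      have : u.re * u.re = 3 * (u.im * u.im) - 1 := by linarith
      rw [this]
      omega
    have h3 : u.re % 3 = 0 ∨ u.re % 3 = 1 ∨ u.re % 3 = 2 := by omega
    rcases h3 with h3 | h3 | h3 <;> rw [Int.mul_emod, h3] at h2 <;> norm_num at h2

lemma unit_sign (r : ℝ) (h : r * r = 3) (h' : (-r) * (-r) = 3) (u : ℤ√3) (hu : IsUnit u) :
    sg (emb r h u) = sg (emb (-r) h' u) := by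
  have h1 := unit_norm u hu
  rw [norm3] at h1
  have h2 : emb r h u * emb (-r) h' u = 1 := by
    rw [emb_apply, emb_apply]
    have h3 : (u.re : ℝ) * u.re - 3 * u.im * u.im = 1 := by exact_mod_cast h1
    have h4 : ((u.re : ℝ) + u.im * r) * (u.re + u.im * -r) =
      u.re * u.re - (r * r) * u.im * u.im := by ring
    rw [h4, h, h3]
  rcases lt_trichotomy (emb r h u) 0 with h3 | h3 | h3
  · have h4 : emb (-r) h' u < 0 := by
      by_contra h5
      push Not at h5
      nlinarith
    rw [sg_neg h3, sg_neg h4]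
  · rw [h3, zero_mul] at h2
    exact absurd h2 (by norm_num)
  · have h4 : 0 < emb (-r) h' u := by
      by_contra h5
      push Not at h5
      nlinarith
    rw [sg_pos h3, sg_pos h4]

end Pool.Agent.Q109.BykP
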