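import Pool.Agent.Q109.BykP.B

/-!
The ring of integers of `ℚ(√3)`.
-/

set_option autoImplicit false

namespace Pool.Agent.Q109.BykP

open Finsupp NumberField

instance fact3 : Fact (∀ r : ℚ, r ^ 2 ≠ 3 + 0 * r) := by
  refine ⟨fun r hr => ?_⟩
  rw [zero_mul, add_zero] at hr
  have h3 : ¬ IsSquare (3 : ℚ) := by
    have : ¬ IsSquare (3 : ℕ) := by
      rintro ⟨r, hr⟩
      have : r < 2 := by nlinarith
      interval_cases r <;> omega
    intro h4
    apply this
    have h5 : IsSquare ((3 : ℕ) : ℚ) := by exact_mod_cast h4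
    exact Rat.isSquare_natCast_iff.1 h5
  exact h3 ⟨r, by rw [← hr]; ring⟩

/-- the field `ℚ(√3)` -/
abbrev K3 := QuadraticAlgebra ℚ 3 0

noncomputable instance : Field K3 := inferInstance

instance : CharZero K3 := by
  have h : Function.Injective (algebraMap ℚ K3) := (algebraMap ℚ K3).injective
  exact charZero_of_injective_algebraMap h

lemma algebraMap_mk (r : ℚ) : algebraMap ℚ K3 r = ⟨r, 0⟩ := rfl

lemma rat_int (r : ℚ) (h : IsIntegral ℤ (algebraMap ℚ K3 r)) : ∃ n : ℤ, (n : ℚ) = r := by
  have h1 : IsIntegral ℤ r := by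
    have := (isIntegral_algebraMap_iff (R := ℤ) (A := ℚ) (B := K3) (algebraMap ℚ K3).injective).1 h
    exact this
  obtain ⟨n, hn⟩ := IsIntegrallyClosed.isIntegral_iff.1 h1
  exact ⟨n, by simpa using hn⟩

/-- integral elements have integral coordinates -/
theorem integral_coords (x : K3) (hx : IsIntegral ℤ x) : ∃ a b : ℤ, x = ⟨a, b⟩ := by
  have hs : IsIntegral ℤ (star x) := by
    have := hx.map ((starRingEnd K3).toIntAlgHom)
    exact this
  obtain ⟨A, hA⟩ := rat_int (2 * x.re) (by
    have h1 : algebraMap ℚ K3 (2 * x.re) = x + star x := by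
      rw [algebraMap_mk]
      ext <;> simp
      ring
    rw [h1]
    exact hx.add hs)
  obtain ⟨N, hN⟩ := rat_int (x.re * x.re - 3 * x.im * x.im) (by
    have h1 : algebraMap ℚ K3 (x.re * x.re - 3 * x.im * x.im) = x * star x := by
      rw [algebraMap_mk]
      ext <;> simp <;> ring
    rw [h1]
    exact hx.mul hs)
  -- `6 x.im` is an integer
  have h6 : IsIntegral ℤ (6 * x.im) := by
    have h1 : (6 * x.im) * (6 * x.im) = ((3 * (A * A - 4 * N) : ℤ) : ℚ) := by
      push_cast
      rw [hA, hN]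
      ring
    refine IsIntegral.of_pow (n := 2) (by norm_num) ?_
    rw [sq, h1]
    exact isIntegral_algebraMap (R := ℤ) (A := ℚ) (x := (3 * (A * A - 4 * N) : ℤ))
  obtain ⟨C, hC⟩ := IsIntegrallyClosed.isIntegral_iff.1 h6
  have hC' : (C : ℚ) = 6 * x.im := by simpa using hC
  have h7 : C * C = 3 * (A * A - 4 * N) := by
    have : (C : ℚ) * C = 3 * (A * A - 4 * N) := by
      rw [hC', hA, hN]
      ring
    exact_mod_cast this
  have h8 : (3 : ℤ) ∣ C := by
    have : (3 : ℤ) ∣ C * C := ⟨_, h7⟩
    rcases Int.prime_three.dvd_or_dvd this with h | h <;> exact h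
  obtain ⟨B, rfl⟩ := h8
  have h9 : 3 * (B * B) = A * A - 4 * N := by linarith
  have hB : x.im = B / 2 := by
    push_cast at hC'
    linarith
  have hAB : A % 2 = 0 ∧ B % 2 = 0 := by
    have hA4 : A % 2 = 0 ∨ A % 2 = 1 := by omega
    have hB4 : B % 2 = 0 ∨ B % 2 = 1 := by omega
    have sqA : ∀ a : ℤ, a % 2 = 0 → (a * a) % 4 = 0 := by
      intro a ha
      obtain ⟨c, rfl⟩ : (2 : ℤ) ∣ a := Int.dvd_of_emod_eq_zero ha
      have : 2 * c * (2 * c) = 4 * (c * c) := by ring
      rw [this]; omega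
    have sqB : ∀ a : ℤ, a % 2 = 1 → (a * a) % 4 = 1 := by
      intro a ha
      obtain ⟨c, hc⟩ : ∃ c, a = 2 * c + 1 := ⟨a / 2, by omega⟩
      have : a * a = 4 * (c * c + c) + 1 := by rw [hc]; ring
      rw [this]; omega
    rcases hA4 with ha | ha <;> rcases hB4 with hb | hb
    · exact ⟨ha, hb⟩
    · have h1 := sqA A ha
      have h2 := sqB B hb
      omega
    · have h1 := sqB A ha
      have h2 := sqA B hb
      omega
    · have h1 := sqB A ha
      have h2 := sqB B hb
      omega
  refine ⟨A / 2, B / 2, ?_⟩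
  have hA2 : (2 : ℚ) * ((A / 2 : ℤ) : ℚ) = A := by
    have : 2 * (A / 2) = A := by omega
    exact_mod_cast this
  have hB2 : (2 : ℚ) * ((B / 2 : ℤ) : ℚ) = B := by
    have : 2 * (B / 2) = B := by omega
    exact_mod_cast this
  ext
  · simp only
    linarith
  · simp only
    linarith

/-- the inclusion of `ℤ√3` -/
noncomputable def incl : ℤ√3 →+* K3 :=
  Zsqrtd.lift ⟨⟨0, 1⟩, by
    ext
    · rw [QuadraticAlgebra.re_intCast]; simp
    · rw [QuadraticAlgebra.im_intCast]; simp⟩

lemma incl_apply (x : ℤ√3) : incl x = ⟨x.re, x.im⟩ := by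
  change ((x.re : K3) + (x.im : K3) * ⟨0, 1⟩) = _
  ext <;> simp

noncomputable instance : Algebra (ℤ√3) K3 := incl.toAlgebra

instance : IsIntegralClosure (ℤ√3) ℤ K3 where
  algebraMap_injective := by
    intro x y hxy
    change incl x = incl y at hxy
    rw [incl_apply, incl_apply] at hxy
    have h1 := congrArg QuadraticAlgebra.re hxy
    have h2 := congrArg QuadraticAlgebra.im hxy
    simp only at h1 h2
    exact Zsqrtd.ext (by exact_mod_cast h1) (by exact_mod_cast h2)
  isIntegral_iff := by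
    intro x
    constructor
    · intro hx
      obtain ⟨a, b, hab⟩ := integral_coords x hx
      refine ⟨⟨a, b⟩, ?_⟩
      change incl _ = x
      rw [incl_apply, hab]
    · rintro ⟨y, rfl⟩
      have h1 : IsIntegral ℤ y := by
        refine ⟨Polynomial.X ^ 2 - Polynomial.C (2 * y.re) * Polynomial.X + Polynomial.C y.norm, ?_, ?_⟩
        · monicity!
        · rw [← Polynomial.aeval_def]
          simp only [map_add, map_sub, map_mul, map_pow, Polynomial.aeval_X, Polynomial.aeval_C]
          simp only [algebraMap_int_eq, eq_intCast]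
          rw [Zsqrtd.norm_def]
          ext <;> simp [sq] <;> ring
      exact h1.map (incl.toIntAlgHom)

instance : NumberField K3 where
  to_charZero := inferInstance
  to_finiteDimensional := inferInstance

/-- the isomorphism -/
noncomputable def eqv : 𝓞 K3 ≃+* ℤ√3 := RingOfIntegers.equiv (ℤ√3)

end Pool.Agent.Q109.BykP
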