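import Mathlib

/-!
The generalized Bykovskii presentation of Steinberg modules.
-/

set_option autoImplicit false

namespace Pool.Agent.Q109.BykP

open Finsupp

section byk

variable (O : Type) [CommRing O]

/-- The ordered bases of `O ^ n`. -/
abbrev Bas (n : ℕ) := Module.Basis (Fin n) O (Fin n → O)

/-- The subgroup of the free abelian group on the symbols `[[v_1, ..., v_n]]` generated by the
relations (1), (2), (3). -/
noncomputable def Rel (n : ℕ) : Submodule ℤ (Bas O n →₀ ℤ) :=
  Submodule.span ℤ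
    ({x | ∃ (b b' : Bas O n) (σ : Equiv.Perm (Fin n)), (∀ i, b' i = b (σ i)) ∧
        x = single b 1 - (Equiv.Perm.sign σ : ℤ) • single b' 1} ∪
      {x | ∃ (b b' : Bas O n) (u : Oˣ), (∀ i : Fin n, b' i = if (i : ℕ) = 0 then u • b i else b i) ∧
        x = single b 1 - single b' 1} ∪
      {x | ∃ (b b' b'' : Bas O n) (i j : Fin n), (i : ℕ) = 0 ∧ (j : ℕ) = 1 ∧
        b' i = b i + b j ∧ (∀ l, l ≠ i → b' l = b l) ∧
        b'' i = b i + b j ∧ b'' j = b i ∧ (∀ l, l ≠ i → l ≠ j → b'' l = b l) ∧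
        x = single b 1 - single b' 1 + single b'' 1})

/-- The group `Byk_n(O)`. -/
abbrev Byk (n : ℕ) := (Bas O n →₀ ℤ) ⧸ Rel O n

/-- The symbol `[[v_1, ..., v_n]]` in `Byk_n(O)`. -/
noncomputable def symb (n : ℕ) (b : Bas O n) : Byk O n := (Rel O n).mkQ (single b 1)

end byk

section steinberg

variable (K : Type) [Field K]

/-- The boundary of chains `(V_0 < ... < V_(m-1))`, for `m ≥ 1` the alternating sum over the chains
with one member deleted; for `m = 0` it is zero. -/
noncomputable def bd (S : Type) :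
    (m : ℕ) → ((Fin m → S) →₀ ℤ) →ₗ[ℤ] ((Fin (m - 1) → S) →₀ ℤ)
  | 0 => 0
  | k + 1 => ∑ i : Fin (k + 1), ((-1 : ℤ) ^ (i : ℕ)) • lmapDomain ℤ ℤ (fun F => F ∘ i.succAbove)

/-- The Steinberg module of `K ^ n`, `n = m + 1`: the top reduced homology (in degree `n - 2`) of
the order complex of the poset of nonzero proper subspaces of `K ^ n`, i.e. the cycles in the group
of the chains `V_0 < ... < V_(m-1)` of such subspaces. (Longer chains do not exist.) -/
noncomputable def St (m : ℕ) : Submodule ℤ ((Fin m → Submodule K (Fin (m + 1) → K)) →₀ ℤ) :=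
  supported ℤ ℤ {F | StrictMono F ∧ ∀ i, F i ≠ ⊥ ∧ F i ≠ ⊤} ⊓ LinearMap.ker (bd _ m)

variable (O : Type) [CommRing O] [Algebra O K]

/-- The fundamental class of the apartment of a basis `b` of `O ^ n`, `n = m + 1`: the sum over the
permutations `σ` of `sign σ` times the chain of the spans of `b (σ 0), ..., b (σ i)`, `i < m`. -/
noncomputable def apartment (m : ℕ) (b : Bas O (m + 1)) :
    (Fin m → Submodule K (Fin (m + 1) → K)) →₀ ℤ :=
  ∑ σ : Equiv.Perm (Fin (m + 1)), (Equiv.Perm.sign σ : ℤ) •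
    single (fun i : Fin m => Submodule.span K
      {w | ∃ j : Fin (m + 1), (j : ℕ) ≤ i ∧ w = fun a => algebraMap O K (b (σ j) a)}) 1

/-- The map `[[v_1, ..., v_n]] ↦` apartment class, `n = m + 1`, on the free abelian group. -/
noncomputable def apt (m : ℕ) :
    (Bas O (m + 1) →₀ ℤ) →ₗ[ℤ] ((Fin m → Submodule K (Fin (m + 1) → K)) →₀ ℤ) :=
  linearCombination ℤ (apartment K O m)

/-- The generalized Bykovskii presentation holds for `O` with fraction field `K`: for every
`n = m + 1 ≥ 1`, sending `[[v_1, ..., v_n]]` to the class of its apartment defines an isomorphism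
`Byk_n(O) → St_n(K)`. -/
def Holds : Prop :=
  ∀ m : ℕ, ∃ e : Byk O (m + 1) ≃ₗ[ℤ] St K m, ∀ b : Bas O (m + 1),
    (e (symb O (m + 1) b) : (Fin m → Submodule K (Fin (m + 1) → K)) →₀ ℤ) = apartment K O m b

end steinberg

/-- `R` has a Euclidean function. -/
def IsEuclidean (R : Type) [CommRing R] : Prop :=
  ∃ φ : R → ℕ, ∀ a b : R, b ≠ 0 → ∃ q r : R, a = b * q + r ∧ (r = 0 ∨ φ r < φ b)

/-- `R` is additively generated by its units. -/
def GeneratedByUnits (R : Type) [CommRing R] : Prop :=
  AddSubgroup.closure {x : R | IsUnit x} = ⊤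

end Pool.Agent.Q109.BykP
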