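import Pool.Agent.Q109.BykP.C

/-!
The presentation fails for `ℤ√3`.
-/

set_option autoImplicit false

namespace Pool.Agent.Q109.BykP

open Finsupp NumberField

section

variable (K : Type) [Field K] (O : Type) [CommRing O] [Algebra O K]

/-- the class of the line of a vector -/
noncomputable def line (v : Fin 2 → O) : (Fin 1 → Submodule K (Fin 2 → K)) →₀ ℤ :=
  single (fun _ => Submodule.span K {fun a => algebraMap O K (v a)}) 1

lemma apartment_two (b : Bas O 2) :
    apartment K O 1 b = line K O (b 0) - line K O (b 1) := by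
  have h1 : (Finset.univ : Finset (Equiv.Perm (Fin (1 + 1)))) = {1, Equiv.swap 0 1} := by decide
  have h2 : ∀ σ : Equiv.Perm (Fin 2), (fun i : Fin 1 => Submodule.span K
      {w | ∃ j : Fin (1 + 1), (j : ℕ) ≤ i ∧ w = fun a => algebraMap O K (b (σ j) a)}) =
      fun _ => Submodule.span K {fun a => algebraMap O K (b (σ 0) a)} := by
    intro σ
    funext i
    congr 1
    ext w
    simp only [Set.mem_ofPred_eq, Set.mem_singleton_iff]
    constructor
    · rintro ⟨j, hj, rfl⟩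
      have : j = 0 := by
        apply Fin.ext
        have hi : (i : ℕ) = 0 := by omega
        rw [hi] at hj
        change (j : ℕ) = 0
        omega
      rw [this]
    · intro h
      exact ⟨0, Nat.zero_le _, h⟩
  unfold apartment
  rw [h1, Finset.sum_pair (by decide), h2, h2]
  rw [Equiv.Perm.sign_one, Equiv.Perm.sign_swap (by decide)]
  rw [Equiv.Perm.one_apply]
  unfold line
  simp [sub_eq_add_neg]

/-- the four-term cycle -/
noncomputable def cyc (v₀ v₁ v₂ v₃ : Fin 2 → O) (h₀ : IsUnit (dt v₀ v₁)) (h₁ : IsUnit (dt v₁ v₂))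
    (h₂ : IsUnit (dt v₂ v₃)) (h₃ : IsUnit (dt v₃ v₀)) : Bas O 2 →₀ ℤ :=
  single (mkBas v₀ v₁ h₀) 1 + single (mkBas v₁ v₂ h₁) 1 + single (mkBas v₂ v₃ h₂) 1 +
    single (mkBas v₃ v₀ h₃) 1

lemma apt_cyc (v₀ v₁ v₂ v₃ : Fin 2 → O) (h₀ : IsUnit (dt v₀ v₁)) (h₁ : IsUnit (dt v₁ v₂))
    (h₂ : IsUnit (dt v₂ v₃)) (h₃ : IsUnit (dt v₃ v₀)) :
    apt K O 1 (cyc O v₀ v₁ v₂ v₃ h₀ h₁ h₂ h₃) = 0 := by
  unfold cyc apt
  rw [map_add, map_add, map_add]
  rw [linearCombination_single, linearCombination_single, linearCombination_single,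
    linearCombination_single]
  rw [apartment_two, apartment_two, apartment_two, apartment_two]
  simp only [mkBas_zero, mkBas_one, one_smul]
  abel

lemma coc_cyc (s s' : O →+* ℝ) (v₀ v₁ v₂ v₃ : Fin 2 → O) (h₀ : IsUnit (dt v₀ v₁))
    (h₁ : IsUnit (dt v₁ v₂)) (h₂ : IsUnit (dt v₂ v₃)) (h₃ : IsUnit (dt v₃ v₀)) :
    coc s s' (cyc O v₀ v₁ v₂ v₃ h₀ h₁ h₂ h₃) =
      (ls s v₀ v₁ + ls s v₁ v₂ + ls s v₂ v₃ + ls s v₃ v₀) -
        (ls s' v₀ v₁ + ls s' v₁ v₂ + ls s' v₂ v₃ + ls s' v₃ v₀) := by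
  unfold cyc
  rw [map_add, map_add, map_add, coc_single, coc_single, coc_single, coc_single]
  simp only [mkBas_zero, mkBas_one]
  ring

/-- the kernel is larger than the relations -/
theorem not_le (s s' : O →+* ℝ) (hs : ∀ u : O, IsUnit u → sg (s u) = sg (s' u)) (t : O)
    (ht : t * t = 3) (h1 : 0 < s t) (h2 : s' t < 0) :
    ∃ z : Bas O 2 →₀ ℤ, apt K O 1 z = 0 ∧ z ∉ Rel O 2 := by
  have d0 : dt (![1, 0] : Fin 2 → O) ![0, 1] = 1 := by simp [dt]
  have d1 : dt (![0, 1] : Fin 2 → O) ![1, t] = -1 := by simp [dt]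
  have d2 : dt (![1, t] : Fin 2 → O) ![1 + t, 1] = -(2 + t) := by
    simp only [dt, Matrix.cons_val_zero, Matrix.cons_val_one]
    linear_combination -ht
  have d3 : dt (![1 + t, 1] : Fin 2 → O) ![1, 0] = -1 := by simp [dt]
  have hu : IsUnit (2 + t) := IsUnit.of_mul_eq_one (2 - t) (by linear_combination -ht)
  have u0 : IsUnit (dt (![1, 0] : Fin 2 → O) ![0, 1]) := by rw [d0]; exact isUnit_one
  have u1 : IsUnit (dt (![0, 1] : Fin 2 → O) ![1, t]) := by rw [d1]; exact isUnit_one.neg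
  have u2 : IsUnit (dt (![1, t] : Fin 2 → O) ![1 + t, 1]) := by rw [d2]; exact hu.neg
  have u3 : IsUnit (dt (![1 + t, 1] : Fin 2 → O) ![1, 0]) := by rw [d3]; exact isUnit_one.neg
  refine ⟨cyc O _ _ _ _ u0 u1 u2 u3, apt_cyc K O _ _ _ _ _ _ _ _, fun hz => ?_⟩
  have h := coc_rel s s' hs _ hz
  rw [coc_cyc] at h
  have l0 : ∀ r : O →+* ℝ, ls r (![1, 0] : Fin 2 → O) ![0, 1] = 0 := by
    intro r
    unfold ls
    simp [sg_zero]
  have l3 : ∀ r : O →+* ℝ, ls r (![1 + t, 1] : Fin 2 → O) ![1, 0] = 0 := by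
    intro r
    unfold ls
    simp [sg_zero]
  have l1 : ∀ r : O →+* ℝ, ls r (![0, 1] : Fin 2 → O) ![1, t] = - sg (r t) := by
    intro r
    unfold ls
    rw [d1, ← sg_negate]
    congr 1
    simp
  have l2 : ∀ r : O →+* ℝ, ls r (![1, t] : Fin 2 → O) ![1 + t, 1] = - (sg (r t) * sg (2 + r t)) := by
    intro r
    unfold ls
    rw [d2, ← sg_mul, ← sg_negate]
    congr 1
    have e2 : r 2 = 2 := map_ofNat r 2
    simp
    rw [e2]
    ring
  rw [l0, l0, l1, l1, l2, l2, l3, l3, sg_pos h1, sg_neg h2, sg_pos (by linarith : 0 < 2 + s t)] at h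
  have hs2 : s' t * s' t = 3 := by
    rw [← map_mul, ht, map_ofNat]
  have h3 : 0 < 2 + s' t := by nlinarith
  rw [sg_pos h3] at h
  norm_num at h

/-- the presentation fails as soon as the kernel is larger than the relations -/
theorem not_holds (z : Bas O 2 →₀ ℤ) (h1 : apt K O 1 z = 0) (h2 : z ∉ Rel O 2) : ¬ Holds K O := by
  intro h
  obtain ⟨e, he⟩ := h 1
  apply h2
  have h3 : ∀ x : Bas O 2 →₀ ℤ,
      (e ((Rel O 2).mkQ x) : (Fin 1 → Submodule K (Fin 2 → K)) →₀ ℤ) = apt K O 1 x := by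
    intro x
    have h4 : (St K 1).subtype ∘ₗ e.toLinearMap ∘ₗ (Rel O 2).mkQ = apt K O 1 := by
      apply Finsupp.lhom_ext'
      intro b
      apply LinearMap.ext_ring
      simp only [LinearMap.comp_apply, lsingle_apply]
      rw [apt, linearCombination_single, one_smul, ← he b]
      rfl
    exact DFunLike.congr_fun h4 x
  have h5 : e ((Rel O 2).mkQ z) = 0 := by
    apply Subtype.ext
    rw [h3, h1]
    rfl
  have h6 : (Rel O 2).mkQ z = 0 := by
    apply e.injective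
    rw [h5, map_zero]
  rwa [Submodule.mkQ_apply, Submodule.Quotient.mk_eq_zero] at h6

end

lemma transport_euclid {R S : Type} [CommRing R] [CommRing S] (e : R ≃+* S)
    (h : IsEuclidean S) : IsEuclidean R := by
  obtain ⟨φ, hφ⟩ := h
  refine ⟨fun x => φ (e x), fun a b hb => ?_⟩
  have hb' : e b ≠ 0 := by
    intro h0
    apply hb
    exact (map_eq_zero_iff e e.injective).1 h0
  obtain ⟨q, r, h1, h2⟩ := hφ (e a) (e b) hb'
  refine ⟨e.symm q, e.symm r, ?_, ?_⟩
  · apply e.injective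
    rw [map_add, map_mul, e.apply_symm_apply, e.apply_symm_apply, h1]
  · rcases h2 with h2 | h2
    · left
      rw [h2, map_zero]
    · right
      change φ (e (e.symm r)) < φ (e b)
      rw [e.apply_symm_apply]
      exact h2

lemma transport_generated {R S : Type} [CommRing R] [CommRing S] (e : R ≃+* S)
    (h : GeneratedByUnits S) : GeneratedByUnits R := by
  unfold GeneratedByUnits at *
  rw [eq_top_iff]
  intro x _
  have h1 : e x ∈ AddSubgroup.closure {x : S | IsUnit x} := by rw [h]; trivial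
  have h2 : ∀ y ∈ AddSubgroup.closure {x : S | IsUnit x},
      e.symm y ∈ AddSubgroup.closure {x : R | IsUnit x} := by
    intro y hy
    induction hy using AddSubgroup.closure_induction with
    | mem y hy => exact AddSubgroup.subset_closure (IsUnit.map e.symm hy)
    | zero => rw [map_zero]; exact AddSubgroup.zero_mem _
    | add a b _ _ ha hb => rw [map_add]; exact AddSubgroup.add_mem _ ha hb
    | neg a _ ha => rw [map_neg]; exact AddSubgroup.neg_mem _ ha
  have h3 := h2 _ h1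
  rwa [e.symm_apply_apply] at h3

/-- the counterexample -/
theorem main : IsEuclidean (𝓞 K3) ∧ GeneratedByUnits (𝓞 K3) ∧
    (∃ z : Bas (𝓞 K3) 2 →₀ ℤ, apt K3 (𝓞 K3) 1 z = 0 ∧ z ∉ Rel (𝓞 K3) 2) ∧ ¬ Holds K3 (𝓞 K3) := by
  have hr : √(3 : ℝ) * √3 = 3 := Real.mul_self_sqrt (by norm_num)
  have hr' : (-√(3 : ℝ)) * (-√3) = 3 := by rw [neg_mul_neg, hr]
  have hpos : 0 < √(3 : ℝ) := Real.sqrt_pos.2 (by norm_num)
  let s : 𝓞 K3 →+* ℝ := (emb (√3) hr).comp (eqv : 𝓞 K3 →+* ℤ√3)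
  let s' : 𝓞 K3 →+* ℝ := (emb (-√3) hr').comp (eqv : 𝓞 K3 →+* ℤ√3)
  have hs : ∀ u : 𝓞 K3, IsUnit u → sg (s u) = sg (s' u) := by
    intro u hu
    exact unit_sign (√3) hr hr' (eqv u) (hu.map eqv)
  have hz := not_le K3 (𝓞 K3) s s' hs (eqv.symm ⟨0, 1⟩) (by
      apply eqv.injective
      rw [map_mul, eqv.apply_symm_apply, map_ofNat]
      ext <;> simp) (by
      change 0 < emb (√3) hr (eqv (eqv.symm ⟨0, 1⟩))
      rw [eqv.apply_symm_apply, emb_apply]
      simp) (by
      change emb (-√3) hr' (eqv (eqv.symm ⟨0, 1⟩)) < 0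
      rw [eqv.apply_symm_apply, emb_apply]
      simp)
  refine ⟨transport_euclid eqv euclid, transport_generated eqv generated, hz, ?_⟩
  obtain ⟨z, h1, h2⟩ := hz
  exact not_holds K3 (𝓞 K3) z h1 h2

end Pool.Agent.Q109.BykP
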